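import Mathlib
import Pool.Agent.Y947.RL.Stm4

/-!
# Project SP (row MP_187c26_nt, last slot): zeros of polynomials with few monomials over ANY algebraic
field `L`, and Remond's inequality over subfields of finite extensions of the field of all roots of
unity. Definitions and statements of the parts.

Paper proof. Let `k ⊆ M` be number fields, `α ∈ M` an algebraic integer, `F ∈ k[X]` a nonzero
polynomial with `s` nonzero coefficients, of degree `N`, `F(α) = 0`, `D = [M : k]`, `n = [M : ℚ]`. For an embedding `σ` of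
`k` let `cl σ` be the set of the `D` embeddings of `M` over `σ`.
(1) for each `σ` the Gram matrix of the vectors `(τ(α)^j / |τ(α)|^j)`, `τ ∈ cl σ`, `j` in the support of
`F`, has a small eigenvalue, because of the relation `F(α) = 0` (CLS).
(2) Summing over `σ` one finds one power `β = α^m`, `1 ≤ m ≤ N`, such that the mean over `σ` of the
square of `|mean over cl σ of refl (τ β)|` is at least `1 / (4 s^2)` (POW), if `N h(α) ≤ 1 / (256 s^2)`.
(3) The equidistribution inequality relative to `k` (FOU), for `k(β)` in the place of `M` (TRF), then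
gives `d' ≤ 5 s^2 (1 + 2 log (2 d'))` for the degree `d'` of `β` over `k` (GEN).
(4) Over subfields `L` of finite extensions of the field of all roots of unity one applies the relative
Dobrowolski inequality to `β` (from project RR).
-/

set_option autoImplicit false

open Finset Polynomial Module Pool.Agent.H388SL Pool.Agent.Y947.DL Pool.Agent.Y947.RL

namespace Pool.Agent.P8H96.SP

/-- the embeddings of `M` that extend the embedding `σ` of `k` -/
noncomputable def cl {k M : Type} [Field k] [NumberField k] [Field M] [NumberField M] [Algebra k M]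
    (σ : k →ₐ[ℚ] ℂ) : Finset (M →ₐ[ℚ] ℂ) := by
  classical exact Finset.univ.filter fun τ => ∀ x : k, τ (algebraMap k M x) = σ x

/-- CARD (40 lines): the classes are a partition and have `[M : k]` elements. Compare
`Pool.Agent.H388SL.sum_embeddings'` (`Pool/Agent/H388SL/Field.lean`): `algHomEquivSigma`, `AlgHom.card k M ℂ` with
the algebra structure of `ℂ` over `k` given by `σ`. -/
def S_CARD : Prop := ∀ (k M : Type) [Field k] [NumberField k] [Field M] [NumberField M] [Algebra k M],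
  (∀ σ : k →ₐ[ℚ] ℂ, (cl (M := M) σ).card = finrank k M) ∧
  (∀ φ : (M →ₐ[ℚ] ℂ) → ℝ, ∑ σ : k →ₐ[ℚ] ℂ, ∑ τ ∈ cl σ, φ τ = ∑ τ : M →ₐ[ℚ] ℂ, φ τ)

/-- TRF (60 lines): sums over a class of a function of a fixed element `β`, in terms of the field
`k(β)`: every embedding of `k(β)` over `σ` has `[M : k(β)]` extensions to `M` (all of them lie over `σ`). Apply
S_CARD to `M / k(β)`, or compare `Pool.Agent.H388SL.sum_embeddings'`. -/
def S_TRF : Prop := ∀ (k M : Type) [Field k] [NumberField k] [Field M] [NumberField M] [Algebra k M]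
  (β : M) (σ : k →ₐ[ℚ] ℂ) (φ : ℂ → ℂ),
  ∑ τ ∈ cl (M := M) σ, φ (τ β) = (finrank (IntermediateField.adjoin k {β}) M : ℂ) *
    ∑ τ ∈ cl (M := IntermediateField.adjoin k {β}) σ, φ (τ (IntermediateField.AdjoinSimple.gen k β))

/-- NRM (100 lines): if `M = k(β)`, `β` integral, then the values `τ β` for `τ ∈ cl σ` are different, and the
product of all the differences, over all `σ`, is at least one. Proof: let `f = minpoly k β`
(separable, degree `[M : k]`); for `τ ∈ cl σ` the image of `f` under `σ` is `∏ τ' ∈ cl σ, (X - C (τ' β))`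
(monic of the right degree with these different zeros), so `τ (f'(β)) = ∏ τ' ∈ (cl σ).erase τ, (τ β - τ' β)`
(`derivative_prod`), where `f'(β) ∈ M` is integral over `ℤ` (the coefficients of `f` are integral:
`minpoly` over the integrally closed ring of integers of `k`, or `f` is a divisor of the image of
`minpoly ℤ β`) and nonzero; `Pool.Agent.H388SL.one_le_prod_norm`. May assume S_CARD. -/
def S_NRM : Prop := ∀ (k M : Type) [Field k] [NumberField k] [Field M] [NumberField M] [Algebra k M]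
  (β : M), IsIntegral ℤ β → IntermediateField.adjoin k {β} = ⊤ →
  (∀ σ : k →ₐ[ℚ] ℂ, ∀ τ ∈ cl (M := M) σ, ∀ τ' ∈ cl (M := M) σ, τ β = τ' β → τ = τ') ∧
  0 ≤ ∑ σ : k →ₐ[ℚ] ℂ, ∑ τ ∈ cl (M := M) σ, ∑ τ' ∈ cl (M := M) σ,
    (open Classical in if τ = τ' then 0 else Real.log ‖τ β - τ' β‖)

/-- FOU (80 lines): the equidistribution inequality relative to `k`. As `Pool.Agent.H388SL.fourier_bound`
(`Pool/Agent/H388SL/SparseA.lean`): apply `Pool.Agent.H388SL.energy` for every `σ` to the set `cl σ` with weights `1` and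
`t = 1 - 1 / (2 d)`, `d = [M : k]`, and sum over `σ`; the discriminant term is not negative by S_NRM. -/
def S_FOU : Prop := ∀ (k M : Type) [Field k] [NumberField k] [Field M] [NumberField M] [Algebra k M]
  (β : M), IsIntegral ℤ β → IntermediateField.adjoin k {β} = ⊤ →
  ∑ σ : k →ₐ[ℚ] ℂ, ‖∑ τ ∈ cl (M := M) σ, H388SL.refl (τ β)‖ ^ 2 ≤
    4 * finrank k M * lam β +
      finrank ℚ k * (finrank k M * (1 + 2 * Real.log (2 * finrank k M)))

/-- FOU is wanted in the form `theorem fou : S_CARD → S_NRM → S_FOU`. -/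
def S_FOUX : Prop := S_CARD → S_NRM → S_FOU

/-- CLS (150 lines, no number theory; adapt `GG_small` and `gram` in `Pool/Agent/H388SL/SparseB.lean` to complex
coefficients): let `F` be a nonzero complex polynomial of degree `N` with `s` nonzero coefficients `c_j`, and
let `z t`, `t ∈ T`, be nonzero zeros of `F`, `u = z / |z|`, `S_(j,l) = ∑ t, u_t^j conj (u_t^l)`,
`G(t) = ∑ c_j u_t^j`, `L = ∑ |c_j|`, `Q = ∑ |c_j|^2`, `H^2 = ∑ (j ≠ l) |S_(j,l)|^2`. Then
`|G(t)|^2 ≤ L^2 (2 N |log |z_t||)` (as GG_small), `L^2 ≤ s Q`, and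
`∑ t, |G(t)|^2 = ∑ (j,l) c_j conj(c_l) S_(j,l) ≥ |T| Q - Q H` (Cauchy-Schwarz over the pairs `j ≠ l`). Divide by `Q`. -/
def S_CLS : Prop := ∀ (ι : Type) (T : Finset ι) (z : ι → ℂ) (F : ℂ[X]), F ≠ 0 →
  (∀ t ∈ T, z t ≠ 0 ∧ F.eval (z t) = 0) →
  (T.card : ℝ) ≤ Real.sqrt (∑ j ∈ F.support, ∑ l ∈ F.support, if j = l then 0 else
      ‖∑ t ∈ T, (z t / ‖z t‖) ^ j * starRingEnd ℂ ((z t / ‖z t‖) ^ l)‖ ^ 2) +
    2 * F.support.card * F.natDegree * ∑ t ∈ T, |Real.log ‖z t‖|

/-- POW (150 lines): one power whose conjugates have a large mean over many classes.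
Put `κ = [k : ℚ]`, `D = [M : k]`, `n = κ D`, `A_σ = ∑ τ ∈ cl σ, |log |τ α||`; then `∑ σ, A_σ ≤ 2 lam α` (because
`∑ τ, log |τ α| ≥ 0`: `one_le_prod_norm`; compare `sum_abs_log` in `Pool/Agent/H388SL/SparseA.lean`). By CLS for the
image of `F` under `σ` (same support and degree), summed over `σ`: `n ≤ ∑ σ, H_σ + 4 s N lam α`, and
`4 s N lam α ≤ n / 64`. By Cauchy-Schwarz `(63/64)^2 κ D^2 ≤ ∑ σ, H_σ^2`, so there are `j ≠ l` in the support with
`∑ σ, |S^σ_(j,l)|^2 ≥ (63/64)^2 κ D^2 / s^2`; put `m = |j - l|`, `|S^σ_(j,l)| = |∑ τ ∈ cl σ, u_τ^m|`. Finally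
`|u_τ^m - refl (τ (α^m))| ≤ min (2, m |log |τ α||)` (`refl_sub_le` in SparseA), so the square of the difference of
`∑ u_τ^m` and `∑ refl (τ (α^m))` is at most `2 D N A_σ`, and the sum over `σ` of this is at most
`4 D N lam α ≤ κ D^2 / (64 s^2)`. Use `|a|^2 ≤ 2 |b|^2 + 2 |a - b|^2`. -/
def S_POW : Prop := ∀ (k M : Type) [Field k] [NumberField k] [Field M] [NumberField M] [Algebra k M]
  (α : M) (F : k[X]), IsIntegral ℤ α → α ≠ 0 → F ≠ 0 → aeval α F = 0 →
  256 * (F.support.card : ℝ) ^ 2 * F.natDegree * lam α ≤ finrank ℚ M →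
  ∃ m : ℕ, 1 ≤ m ∧ m ≤ F.natDegree ∧
    (finrank ℚ k : ℝ) * (finrank k M : ℝ) ^ 2 / (4 * (F.support.card : ℝ) ^ 2) ≤
      ∑ σ : k →ₐ[ℚ] ℂ, ‖∑ τ ∈ cl (M := M) σ, H388SL.refl (τ (α ^ m))‖ ^ 2

/-- POW is wanted in the form `theorem pow : S_CARD → S_CLS → S_POW`. -/
def S_POWX : Prop := S_CARD → S_CLS → S_POW

/-- GEN (100 lines): the general theorem for number fields. Take `m` and `β = α^m` from POW, `B = k(β)`,
`g` its generator, `d' = [B : k]`, `e' = [M : B]`, `D = d' e'`. By TRF the sums of POW are `e'` times those of FOU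
for `g`, and `e' lam g = lam β = m lam α` (`lam_pow`; TRF summed over `σ`, with S_CARD). So
`κ D^2 / (4 s^2) ≤ e'^2 (4 d' lam g + κ d' (1 + 2 log (2 d')))`, where
`e'^2 4 d' lam g = 4 D m lam α ≤ 4 D N lam α ≤ κ D^2 / (64 s^2)`. Hence
`15 d'^2 / (64 s^2) ≤ d' (1 + 2 log (2 d'))`. -/
def S_GEN : Prop := ∀ (k M : Type) [Field k] [NumberField k] [Field M] [NumberField M] [Algebra k M]
  (α : M) (F : k[X]), IsIntegral ℤ α → α ≠ 0 → F ≠ 0 → aeval α F = 0 →
  256 * (F.support.card : ℝ) ^ 2 * F.natDegree * lam α ≤ finrank ℚ M →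
  ∃ m : ℕ, 1 ≤ m ∧ m ≤ F.natDegree ∧ ((minpoly k (α ^ m)).natDegree : ℝ) ≤
    5 * (F.support.card : ℝ) ^ 2 * (1 + 2 * Real.log (2 * (minpoly k (α ^ m)).natDegree))

/-- GEN is wanted in the form `theorem gen : S_CARD → S_TRF → S_FOU → S_POW → S_GEN`. -/
def S_GENX : Prop := S_CARD → S_TRF → S_FOU → S_POW → S_GEN

/-- HG (60 lines): the height. `hgt z` is the logarithm of the Mahler measure of `minpoly ℤ z` divided by
the degree. Compare the proof of `irr_sector` / `exists_field` in `Pool/Agent/TH869/LS/S3.lean`, or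
`Pool.Agent.H388SL.sum_embeddings'`, `minpoly_map_eq` (`Pool/Agent/H388SL/Field.lean`), and
`Pool.Agent.Y947.RL.log_mahler_prod` (`Pool/Agent/Y947/RL/Fin.lean`). -/
def S_HG : Prop := ∀ (M : Type) [Field M] [NumberField M] (α : M) (τ : M →ₐ[ℚ] ℂ), IsIntegral ℤ α →
  hgt (τ α) * finrank ℚ M = lam α

/-- FLD (80 lines): descent to a number field. `K` is generated over `ℚ` by the coefficients of `F` and of
the minimal polynomials over `L` of `z^m`, `m ≤ N`; these are algebraic numbers. A minimal polynomial over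
`L` whose coefficients are in `K ≤ L` is the minimal polynomial over `K` (same degree). -/
def S_FLD : Prop := ∀ (L : IntermediateField ℚ ℂ), Algebra.IsAlgebraic ℚ L → ∀ (z : ℂ), IsIntegral ℤ z →
  ∀ (F : L[X]) (N : ℕ), ∃ K : IntermediateField ℚ ℂ, FiniteDimensional ℚ K ∧ K ≤ L ∧
    (∃ G : K[X], G.map (algebraMap K ℂ) = F.map (algebraMap L ℂ)) ∧
    ∀ m ≤ N, (minpoly K (z ^ m)).natDegree = (minpoly L (z ^ m)).natDegree

/-- REAL (60 lines), compare `real_R` in `Pool/Agent/H388SL/SparseC.lean`: `d ≤ 15 s^2 log (2d) / log 2`-like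
bounds give `log (2 d) ≤ 16 log (2 s)`. Here `C` is absolute. -/
def S_REAL : Prop := ∃ C : ℝ, 1 ≤ C ∧ ∀ d s : ℝ, 1 ≤ d → 1 ≤ s →
  d ≤ 5 * s ^ 2 * (1 + 2 * Real.log (2 * d)) →
  d * (1 + Real.log d) ^ 6 ≤ C * s ^ 2 * (Real.log (2 * s)) ^ 7

/-- DB (80 lines): the mean of the logarithms of the discriminants is not negative. The discriminant of
`F` (a polynomial in `ℤ[T]`) specialises to the discriminants of the `sp ω F` (`Polynomial.discr` and
ring homomorphisms for monic polynomials: via `resultant_deriv` and `resultant_map_map`, compare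
`Pool.Agent.R383.Disc.discr_rep`; or `Pool/Agent/P8H32/RR/Dsc.lean`), which are not zero as the zeros are simple
(`Pool.Agent.P8H96.RR.sep`, `Pool/Agent/P8H96/RR/Expr.lean`); and for `δ ∈ ℤ[T]` with `δ(ω) ≠ 0` for the primitive
`m`-th roots of unity `ω`, the product of the `δ(ω)` is (up to sign) the resultant of `δ` and the
cyclotomic polynomial, a nonzero integer (or: the norm of an integer of the cyclotomic field). -/
def S_DB : Prop := ∀ (m : ℕ) (F : ℤ[X][X]), Hyp3 m F → 0 < F.natDegree →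
  (∀ ω : ℂ, IsPrimitiveRoot ω m → (sp ω F).roots.Nodup) →
  0 ≤ meanP m (fun ω => Real.log ‖(sp ω F).discr‖)

end Pool.Agent.P8H96.SP
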