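import Mathlib

/-!
# Project SP: an explicit form of the bound of the degree
-/

set_option autoImplicit false

namespace Pool.Agent.P8H96.SP

lemma explicit {d s : ℝ} (hd : 1 ≤ d) (hs : 1 ≤ s) (h : d ≤ 5 * s ^ 2 * (1 + 2 * Real.log (2 * d))) :
    d ≤ 60 * s ^ 2 * (1 + Real.log s) := by
  obtain ⟨y, hy⟩ : ∃ y, y = Real.log s := ⟨_, rfl⟩
  have hy0 : 0 ≤ y := by rw [hy]; exact Real.log_nonneg hs
  rw [← hy]
  have hs2 : 1 ≤ s ^ 2 := one_le_pow₀ hs
  obtain ⟨K, hK⟩ : ∃ K, K = 60 * s ^ 2 * (1 + y) := ⟨_, rfl⟩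
  have hK0 : 0 < K := by rw [hK]; positivity
  have h1 : Real.log (2 * d) ≤ Real.log (2 * K) + (d / K - 1) := by
    have h2 : Real.log (2 * d) = Real.log (2 * K) + Real.log (d / K) := by
      rw [← Real.log_mul (by positivity) (by positivity)]
      congr 1
      field_simp
    have h3 := Real.log_le_sub_one_of_pos (show 0 < d / K by positivity)
    linarith
  have h4 : Real.log (2 * K) ≤ 4.853 + 3 * y := by
    have e : 2 * K = 120 * s ^ 2 * (1 + y) := by rw [hK]; ring
    rw [e, Real.log_mul (by positivity) (by positivity), Real.log_mul (by positivity) (by positivity),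
      Real.log_pow, ← hy]
    have h5 : Real.log 120 ≤ 7 * Real.log 2 := by
      have h6 : Real.log 120 ≤ Real.log (2 ^ 7) := Real.log_le_log (by norm_num) (by norm_num)
      rw [Real.log_pow] at h6
      exact_mod_cast h6
    have h7 := Real.log_two_lt_d9
    have h8 := Real.log_le_sub_one_of_pos (show 0 < 1 + y by linarith)
    push_cast
    linarith
  have h9 : s ^ 2 * (d / K) ≤ d / 60 := by
    rw [hK, ← mul_div_assoc, div_le_div_iff₀ (by positivity) (by norm_num)]
    nlinarith [mul_nonneg (mul_nonneg (by linarith : 0 ≤ d) (by positivity : 0 ≤ s ^ 2)) hy0]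
  have h10 : d ≤ 5 * s ^ 2 + 10 * s ^ 2 * (4.853 + 3 * y) + d / 6 - 10 * s ^ 2 := by
    have h11 : s ^ 2 * Real.log (2 * d) ≤ s ^ 2 * (4.853 + 3 * y) + d / 60 - s ^ 2 := by
      have h12 := mul_le_mul_of_nonneg_left (h1.trans (add_le_add h4 le_rfl)) (by positivity : 0 ≤ s ^ 2)
      have h13 : s ^ 2 * (4.853 + 3 * y + (d / K - 1)) = s ^ 2 * (4.853 + 3 * y) + s ^ 2 * (d / K) - s ^ 2 := by
        ring
      linarith
    nlinarith
  nlinarith [mul_nonneg (by positivity : 0 ≤ s ^ 2) hy0]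

end Pool.Agent.P8H96.SP
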