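import Mathlib
import Pool.Agent.P8H96.SP.Stm
import Pool.Agent.P8H96.RR.All

/-!
# Project SP: assembly
-/

set_option autoImplicit false

open Finset Polynomial Module Pool.Agent.H388SL Pool.Agent.Y947.DL Pool.Agent.Y947.RL

namespace Pool.Agent.P8H96.SP

lemma hgt_pow (hhg : S_HG) {z : ℂ} (hz : IsIntegral ℤ z) (m : ℕ) : hgt (z ^ m) = m * hgt z := by
  have hzQ : IsIntegral ℚ z := hz.tower_top
  have hfd : FiniteDimensional ℚ (IntermediateField.adjoin ℚ {z}) :=
    IntermediateField.adjoin.finiteDimensional hzQ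
  have hNF : NumberField (IntermediateField.adjoin ℚ {z}) :=
    { to_charZero := inferInstance, to_finiteDimensional := hfd }
  set M := IntermediateField.adjoin ℚ {z} with hM
  let τ : M →ₐ[ℚ] ℂ := M.val
  set α : M := IntermediateField.AdjoinSimple.gen ℚ z with hα
  have hτ : τ α = z := rfl
  have hαi : IsIntegral ℤ α := by
    have h1 : IsIntegral ℤ (algebraMap M ℂ α) := hz
    exact (isIntegral_algebraMap_iff (algebraMap M ℂ).injective).mp h1
  have h1 := hhg M α τ hαi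
  have h2 := hhg M (α ^ m) τ (hαi.pow m)
  rw [lam_pow, ← h1, map_pow, hτ, ← mul_assoc] at h2
  have hn : (0:ℝ) < finrank ℚ M := by exact_mod_cast finrank_pos
  exact mul_right_cancel₀ hn.ne' h2

lemma hgt_nonneg (hhg : S_HG) {z : ℂ} (hz : IsIntegral ℤ z) : 0 ≤ hgt z := by
  have hzQ : IsIntegral ℚ z := hz.tower_top
  have hfd : FiniteDimensional ℚ (IntermediateField.adjoin ℚ {z}) :=
    IntermediateField.adjoin.finiteDimensional hzQ
  have hNF : NumberField (IntermediateField.adjoin ℚ {z}) :=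
    { to_charZero := inferInstance, to_finiteDimensional := hfd }
  set M := IntermediateField.adjoin ℚ {z} with hM
  let τ : M →ₐ[ℚ] ℂ := M.val
  set α : M := IntermediateField.AdjoinSimple.gen ℚ z with hα
  have hαi : IsIntegral ℤ α := by
    have h1 : IsIntegral ℤ (algebraMap M ℂ α) := hz
    exact (isIntegral_algebraMap_iff (algebraMap M ℂ).injective).mp h1
  have h1 := hhg M α τ hαi
  have hn : (0:ℝ) < finrank ℚ M := by exact_mod_cast finrank_pos
  have h3 := lam_nonneg α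
  rw [← h1] at h3
  have h4 : hgt (τ α) = hgt z := rfl
  rw [h4] at h3
  exact nonneg_of_mul_nonneg_left h3 hn

/-- the general theorem, for all algebraic fields -/
def S_A : Prop := ∀ (L : IntermediateField ℚ ℂ), Algebra.IsAlgebraic ℚ L → ∀ z : ℂ, IsIntegral ℤ z →
  z ≠ 0 → ∀ F : L[X], F ≠ 0 → aeval z F = 0 →
  (F.natDegree : ℝ) * hgt z ≤ 1 / (256 * (F.support.card : ℝ) ^ 2) →
  ∃ m : ℕ, 1 ≤ m ∧ m ≤ F.natDegree ∧ ((minpoly L (z ^ m)).natDegree : ℝ) ≤
    5 * (F.support.card : ℝ) ^ 2 * (1 + 2 * Real.log (2 * (minpoly L (z ^ m)).natDegree))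

theorem partA (hgen : S_GEN) (hhg : S_HG) (hfld : S_FLD) : S_A := by
  intro L hL z hz h0 F hF0 hF hsmall
  obtain ⟨K, hKfd, hKL, ⟨G, hG⟩, hdeg⟩ := hfld L hL z hz F F.natDegree
  have hNK : NumberField K := { to_charZero := inferInstance, to_finiteDimensional := hKfd }
  have hzQ : IsIntegral ℚ z := hz.tower_top
  have hzK : IsIntegral K z := hzQ.tower_top
  have hfdM : FiniteDimensional K (IntermediateField.adjoin K {z}) :=
    IntermediateField.adjoin.finiteDimensional hzK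
  have hfdQ : FiniteDimensional ℚ (IntermediateField.adjoin K {z}) :=
    FiniteDimensional.trans ℚ K _
  have hNM : NumberField (IntermediateField.adjoin K {z}) :=
    { to_charZero := inferInstance, to_finiteDimensional := hfdQ }
  set M := IntermediateField.adjoin K {z} with hM
  set α : M := IntermediateField.AdjoinSimple.gen K z with hα
  let τ : M →ₐ[ℚ] ℂ := M.val.restrictScalars ℚ
  have hτ : τ α = z := rfl
  have halg : algebraMap M ℂ α = z := rfl
  have hαi : IsIntegral ℤ α := by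
    have h1 : IsIntegral ℤ (algebraMap M ℂ α) := hz
    exact (isIntegral_algebraMap_iff (algebraMap M ℂ).injective).mp h1
  have hα0 : α ≠ 0 := by
    intro h
    rw [h, map_zero] at halg
    exact h0 halg.symm
  have hinjK : Function.Injective (algebraMap K ℂ) := (algebraMap K ℂ).injective
  have hinjL : Function.Injective (algebraMap L ℂ) := (algebraMap L ℂ).injective
  have hsupp : G.support = F.support := by
    rw [← support_map_of_injective G hinjK, hG, support_map_of_injective F hinjL]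
  have hnat : G.natDegree = F.natDegree := by
    rw [← natDegree_map_eq_of_injective hinjK, hG, natDegree_map_eq_of_injective hinjL]
  have hG0 : G ≠ 0 := by
    rintro rfl
    rw [Polynomial.map_zero] at hG
    exact hF0 ((Polynomial.map_eq_zero_iff hinjL).mp hG.symm)
  have hGα : aeval α G = 0 := by
    apply (algebraMap M ℂ).injective
    rw [map_zero, ← aeval_algebraMap_apply, halg, aeval_def, ← eval_map, hG, eval_map, ← aeval_def,
      hF]
  have hn : (0:ℝ) < finrank ℚ M := by exact_mod_cast finrank_pos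
  have hs : 0 < F.support.card := Finset.card_pos.mpr (support_nonempty.mpr hF0)
  have hs' : (0:ℝ) < F.support.card := by exact_mod_cast hs
  have hlam := hhg M α τ hαi
  rw [hτ] at hlam
  obtain ⟨m, hm1, hmN, hm⟩ := hgen K M α G hαi hα0 hG0 hGα (by
    rw [hsupp, hnat, ← hlam]
    rw [le_div_iff₀ (by positivity)] at hsmall
    calc 256 * (F.support.card : ℝ) ^ 2 * F.natDegree * (hgt z * finrank ℚ M) =
          (F.natDegree * hgt z * (256 * (F.support.card : ℝ) ^ 2)) * finrank ℚ M := by ring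
      _ ≤ 1 * (finrank ℚ M : ℝ) := mul_le_mul_of_nonneg_right hsmall hn.le
      _ = (finrank ℚ M : ℝ) := one_mul _)
  rw [hnat] at hmN
  have hmin : minpoly K (α ^ m) = minpoly K (z ^ m) := by
    rw [← minpoly.algebraMap_eq (algebraMap M ℂ).injective (α ^ m), map_pow, halg]
  rw [hsupp, hmin, hdeg m hmN] at hm
  exact ⟨m, hm1, hmN, hm⟩

/-- relative Dobrowolski inequality -/
def S_DOB : Prop := ∃ c : ℝ, 0 < c ∧ ∀ z : ℂ, IsIntegral ℤ z → z ≠ 0 →
  (∀ n : ℕ, 0 < n → z ^ n ≠ 1) →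
  ∀ (E : IntermediateField QAb ℂ) [FiniteDimensional QAb E] (L : IntermediateField ℚ ℂ),
    (∀ x ∈ L, x ∈ E) →
    c / (finrank QAb E * (1 + Real.log (finrank QAb E)) ^ 6) ≤
      (minpoly L z).natDegree * (1 + Real.log (minpoly L z).natDegree) ^ 6 * hgt z

theorem dob (halg : RR.S_ALG) (hdb : S_DB) (hsep : RR.S_SEP) (hcnj : T_CNJ) : S_DOB := by
  obtain ⟨c, hc, h⟩ := halg
  refine ⟨c, hc, ?_⟩
  intro z hz h0 hroot E _ L hL
  obtain ⟨⟨m, ω₀, F, hm, hω₀, hF, heq⟩, h2⟩ := h z hz h0 hroot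
  have hyp := hcnj z hz h0 hroot m ω₀ F hm hω₀ hF heq
  obtain ⟨hD0, hnd⟩ := hsep m F hyp
  have hdb' := hdb m F hyp hD0 hnd
  have hdeg : F.natDegree = (minpoly QAb z).natDegree := by
    rw [← heq]
    unfold sp
    rw [hF.natDegree_map]
  obtain ⟨D, hD⟩ : ∃ D : ℝ, D = F.natDegree := ⟨_, rfl⟩
  obtain ⟨e, he⟩ : ∃ e : ℝ, e = finrank QAb E := ⟨_, rfl⟩
  obtain ⟨d, hd⟩ : ∃ d : ℝ, d = (minpoly L z).natDegree := ⟨_, rfl⟩
  have hD1 : 1 ≤ D := by rw [hD]; exact_mod_cast hD0
  have he1 : 1 ≤ e := by rw [he]; exact_mod_cast (finrank_pos : 0 < finrank QAb E)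
  have hzL : IsIntegral L z := (hz.tower_top (A := ℚ)).tower_top
  have hd1 : 1 ≤ d := by rw [hd]; exact_mod_cast minpoly.natDegree_pos hzL
  have hDed : D ≤ e * d := by
    rw [hD, he, hd, hdeg]
    exact_mod_cast RR.deg E L hL z hz
  have h3 := h2 m ω₀ F hm hω₀ hF heq (Real.log D) (Real.log_nonneg hD1) (Or.inr (by
    rw [← hD, sub_self, mul_zero]; exact hdb')) E L hL
  rw [← he, ← hd] at h3 ⊢
  have hle : 0 ≤ Real.log e := Real.log_nonneg he1
  have hld : 0 ≤ Real.log d := Real.log_nonneg hd1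
  have hlD : 0 ≤ Real.log D := Real.log_nonneg hD1
  have h4 : 1 + Real.log D ≤ (1 + Real.log e) * (1 + Real.log d) := by
    have h5 := Real.log_le_log (by linarith) hDed
    rw [Real.log_mul (by linarith) (by linarith)] at h5
    nlinarith [mul_nonneg hle hld]
  have h5 : (1 + Real.log D) ^ 6 ≤ ((1 + Real.log e) * (1 + Real.log d)) ^ 6 :=
    pow_le_pow_left₀ (by linarith) h4 6
  have he0 : 0 < e := by linarith
  rw [div_div, div_le_iff₀ (by positivity)] at h3
  rw [div_le_iff₀ (by positivity)]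
  have h6 : 0 < d * hgt z := by
    by_contra hcon
    push Not at hcon
    have : d * hgt z * (e * (1 + Real.log D) ^ 6) ≤ 0 :=
      mul_nonpos_of_nonpos_of_nonneg hcon (by positivity)
    linarith
  calc c ≤ d * hgt z * (e * (1 + Real.log D) ^ 6) := h3
    _ ≤ d * hgt z * (e * ((1 + Real.log e) * (1 + Real.log d)) ^ 6) := by
        apply mul_le_mul_of_nonneg_left _ h6.le
        exact mul_le_mul_of_nonneg_left h5 he0.le
    _ = _ := by ring

lemma isAlg_QAb : Algebra.IsAlgebraic ℚ QAb := by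
  unfold QAb
  apply IntermediateField.isAlgebraic_adjoin
  rintro z ⟨n, hn, h⟩
  exact ⟨X ^ n - 1, monic_X_pow_sub_C (1:ℚ) hn.ne', by simp [h]⟩

lemma isAlg_of_le (E : IntermediateField QAb ℂ) [FiniteDimensional QAb E]
    (L : IntermediateField ℚ ℂ) (hL : ∀ x ∈ L, x ∈ E) : Algebra.IsAlgebraic ℚ L := by
  have h1 := isAlg_QAb
  refine ⟨fun x => ?_⟩
  have h2 : IsAlgebraic QAb ((⟨x, hL x x.2⟩ : E) : ℂ) := by
    have h3 : IsAlgebraic QAb (⟨x, hL x x.2⟩ : E) := Algebra.IsAlgebraic.isAlgebraic _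
    exact h3.algebraMap
  have h3 : IsAlgebraic ℚ (x : ℂ) := h2.restrictScalars ℚ
  exact (isAlgebraic_algebraMap_iff (algebraMap L ℂ).injective).mp h3

/-- the theorem over subfields of finite extensions of the field of all roots of unity -/
def S_B : Prop := ∃ c : ℝ, 0 < c ∧
  ∀ (E : IntermediateField QAb ℂ) [FiniteDimensional QAb E] (L : IntermediateField ℚ ℂ),
    (∀ x ∈ L, x ∈ E) → ∀ z : ℂ, IsIntegral ℤ z → z ≠ 0 → (∀ n : ℕ, 0 < n → z ^ n ≠ 1) →
    ∀ F : L[X], F ≠ 0 → aeval z F = 0 →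
    c / (finrank QAb E * (1 + Real.log (finrank QAb E)) ^ 6) /
        ((F.support.card : ℝ) ^ 2 * (Real.log (2 * F.support.card)) ^ 7) ≤ F.natDegree * hgt z

theorem partB (hA : S_A) (hdob : S_DOB) (hreal : S_REAL) (hhg : S_HG) : S_B := by
  obtain ⟨c0, hc0, hdb⟩ := hdob
  obtain ⟨C, hC1, hR⟩ := hreal
  have hlog2 : 0 < Real.log 2 := Real.log_pos (by norm_num)
  have hC0 : 0 < C := by linarith
  refine ⟨min ((Real.log 2) ^ 7 / 256) (c0 / C), by positivity, ?_⟩
  intro E _ L hL z hz h0 hroot F hF0 hF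
  obtain ⟨c, hcdef⟩ : ∃ c : ℝ, c = min ((Real.log 2) ^ 7 / 256) (c0 / C) := ⟨_, rfl⟩
  have hc1 : c ≤ (Real.log 2) ^ 7 / 256 := hcdef ▸ min_le_left _ _
  have hc2 : c ≤ c0 / C := hcdef ▸ min_le_right _ _
  have hcpos : 0 < c := by rw [hcdef]; positivity
  rw [← hcdef]
  have hLalg := isAlg_of_le E L hL
  obtain ⟨s, hs⟩ : ∃ s : ℝ, s = F.support.card := ⟨_, rfl⟩
  obtain ⟨e1, he1⟩ : ∃ e1 : ℝ, e1 = finrank QAb E * (1 + Real.log (finrank QAb E)) ^ 6 := ⟨_, rfl⟩
  obtain ⟨N, hN⟩ : ∃ N : ℝ, N = F.natDegree := ⟨_, rfl⟩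
  have hs1 : 1 ≤ s := by
    rw [hs]; exact_mod_cast Finset.card_pos.mpr (support_nonempty.mpr hF0)
  have hE1 : (1:ℝ) ≤ finrank QAb E := by exact_mod_cast (finrank_pos : 0 < finrank QAb E)
  have he11 : 1 ≤ e1 := by
    rw [he1]
    have h1 : (1:ℝ) ≤ (1 + Real.log (finrank QAb E)) ^ 6 :=
      one_le_pow₀ (by linarith [Real.log_nonneg hE1])
    nlinarith
  have hN0 : 0 ≤ N := by rw [hN]; exact Nat.cast_nonneg _
  have hh0 := hgt_nonneg hhg hz
  have hly : Real.log 2 ≤ Real.log (2 * s) := Real.log_le_log (by norm_num) (by linarith)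
  have hly0 : 0 < Real.log (2 * s) := by linarith
  have hS : 0 < s ^ 2 * Real.log (2 * s) ^ 7 := by positivity
  have hAz := hA L hLalg z hz h0 F hF0 hF
  rw [← he1]
  rw [← hs, ← hN] at hAz ⊢
  rw [div_div, div_le_iff₀ (by positivity)]
  rcases lt_or_ge (1 / (256 * s ^ 2)) (N * hgt z) with hbig | hsmall
  · rw [div_lt_iff₀ (by positivity)] at hbig
    have h7 : (Real.log 2) ^ 7 ≤ Real.log (2 * s) ^ 7 := pow_le_pow_left₀ hlog2.le hly 7
    have hNh : 0 ≤ N * hgt z := mul_nonneg hN0 hh0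
    have h8 : (Real.log 2) ^ 7 / 256 ≤ N * hgt z * (s ^ 2 * Real.log (2 * s) ^ 7) := by
      calc (Real.log 2) ^ 7 / 256 = 1 * (Real.log 2) ^ 7 / 256 := by ring
        _ ≤ (N * hgt z * (256 * s ^ 2)) * (Real.log (2 * s)) ^ 7 / 256 := by
            apply div_le_div_of_nonneg_right _ (by norm_num)
            exact mul_le_mul hbig.le h7 (by positivity) (by positivity)
        _ = N * hgt z * (s ^ 2 * Real.log (2 * s) ^ 7) := by ring
    have h9 : N * hgt z * (s ^ 2 * Real.log (2 * s) ^ 7) ≤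
        N * hgt z * (e1 * (s ^ 2 * Real.log (2 * s) ^ 7)) := by
      apply mul_le_mul_of_nonneg_left _ hNh
      exact le_mul_of_one_le_left hS.le he11
    linarith
  · obtain ⟨m, hm1, hmN, hm⟩ := hAz hsmall
    obtain ⟨d, hd⟩ : ∃ d : ℝ, d = (minpoly L (z ^ m)).natDegree := ⟨_, rfl⟩
    have hzL : IsIntegral L (z ^ m) := ((hz.pow m).tower_top (A := ℚ)).tower_top
    have hd1 : 1 ≤ d := by rw [hd]; exact_mod_cast minpoly.natDegree_pos hzL
    rw [← hd] at hm
    have h1 := hR d s hd1 hs1 hm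
    have h2 := hdb (z ^ m) (hz.pow m) (pow_ne_zero m h0) (by
      intro n hn h
      rw [← pow_mul] at h
      exact hroot (m * n) (Nat.mul_pos hm1 hn) h) E L hL
    rw [hgt_pow hhg hz m, ← hd, ← he1, div_le_iff₀ (by linarith)] at h2
    have hmN' : (m:ℝ) ≤ N := by rw [hN]; exact_mod_cast hmN
    have h3 : (m:ℝ) * hgt z ≤ N * hgt z := mul_le_mul_of_nonneg_right hmN' hh0
    have hm0 : 0 ≤ (m:ℝ) * hgt z := mul_nonneg (Nat.cast_nonneg _) hh0
    have h4 : c0 ≤ C * (N * hgt z * (e1 * (s ^ 2 * Real.log (2 * s) ^ 7))) := by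
      calc c0 ≤ d * (1 + Real.log d) ^ 6 * (m * hgt z) * e1 := h2
        _ ≤ (C * s ^ 2 * Real.log (2 * s) ^ 7) * (m * hgt z) * e1 := by
            apply mul_le_mul_of_nonneg_right _ (by linarith)
            exact mul_le_mul_of_nonneg_right h1 hm0
        _ ≤ (C * s ^ 2 * Real.log (2 * s) ^ 7) * (N * hgt z) * e1 := by
            apply mul_le_mul_of_nonneg_right _ (by linarith)
            exact mul_le_mul_of_nonneg_left h3 (by positivity)
        _ = _ := by ring
    have h5 : c0 / C ≤ N * hgt z * (e1 * (s ^ 2 * Real.log (2 * s) ^ 7)) := by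
      rw [div_le_iff₀ hC0]
      linarith
    linarith

end Pool.Agent.P8H96.SP
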