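import Mathlib
import Pool.Agent.P8H96.SP.Fin
import Pool.Agent.P8H96.SP.Ex
import Pool.Agent.P8H53.RL.Ht
import Pool.Agent.P8H44.RL.Sc
import Pool.Agent.P8H96.RL.Tau

/-!
# Project SP: the theorems for subfields of `AlgebraicClosure ℚ`
-/

set_option autoImplicit false

open Finset Polynomial Module Pool.Agent.Y947.RL

namespace Pool.Agent.P8H96.SP

/-- an embedding of the algebraic numbers -/
noncomputable def io : AlgebraicClosure ℚ →ₐ[ℚ] ℂ :=
  have := P8H96.RL.Tau.isAlgQ
  IsAlgClosed.lift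

theorem hgt_io (z : AlgebraicClosure ℚ) (hz : IsIntegral ℤ z) :
    hgt (io z) = NumberField.absLogHeight₁ z ∧ IsIntegral ℤ (io z) := by
  have h1 := P8H53.RL.ht z hz
  have hmin : minpoly ℤ (io z) = minpoly ℤ z :=
    minpoly.algHom_eq (io.restrictScalars ℤ) io.toRingHom.injective z
  have hint : IsIntegral ℤ (io z) := hz.map (io.restrictScalars ℤ)
  refine ⟨?_, hint⟩
  have hm : (minpoly ℤ z).Monic := minpoly.monic hz
  unfold hgt
  rw [h1, hmin]
  congr 1
  rw [mahlerMeasure_eq_leadingCoeff_mul_prod_roots, (hm.map _).leadingCoeff, norm_one, one_mul]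
  generalize ((minpoly ℤ z).map (Int.castRingHom ℂ)).roots = S
  induction S using Multiset.induction_on with
  | empty => simp
  | cons a S ih =>
    rw [Multiset.map_cons, Multiset.prod_cons, Multiset.map_cons, Multiset.sum_cons, Real.log_mul, ih,
      Real.posLog_eq_log_max_one (norm_nonneg _)]
    · exact (lt_of_lt_of_le one_pos (le_max_left _ _)).ne'
    · apply Multiset.prod_ne_zero
      intro h
      obtain ⟨w, _, hw⟩ := Multiset.mem_map.mp h
      have : (0:ℝ) < max 1 ‖w‖ := lt_of_lt_of_le one_pos (le_max_left _ _)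
      linarith

lemma isIntQ (x : AlgebraicClosure ℚ) : IsIntegral ℚ x :=
  (P8H96.RL.Tau.isAlgQ.isAlgebraic x).isIntegral

/-- the image of a subfield -/
noncomputable def im (L : IntermediateField ℚ (AlgebraicClosure ℚ)) : IntermediateField ℚ ℂ := L.map io

/-- the isomorphism -/
noncomputable def eq (L : IntermediateField ℚ (AlgebraicClosure ℚ)) : L ≃ₐ[ℚ] im L :=
  L.equivMap io

lemma eq_apply (L : IntermediateField ℚ (AlgebraicClosure ℚ)) (x : L) :
    ((eq L x : im L) : ℂ) = io (x : AlgebraicClosure ℚ) := rfl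

lemma aeval_im (L : IntermediateField ℚ (AlgebraicClosure ℚ)) (x : AlgebraicClosure ℚ) (F : L[X]) :
    aeval (io x) (F.map ((eq L : L ≃ₐ[ℚ] im L) : L →+* im L)) = io (aeval x F) := by
  rw [aeval_def, eval₂_map, aeval_def, ← AlgHom.coe_toRingHom, hom_eval₂]
  congr 1

lemma deg_le_im (L : IntermediateField ℚ (AlgebraicClosure ℚ)) (x : AlgebraicClosure ℚ) :
    (minpoly L x).natDegree = (minpoly (im L) (io x)).natDegree := by
  have hxQ : IsIntegral ℚ x := isIntQ x
  have hx : IsIntegral L x := hxQ.tower_top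
  have hyQ : IsIntegral ℚ (io x) := hxQ.map io
  have hy : IsIntegral (im L) (io x) := hyQ.tower_top
  apply le_antisymm
  · set P : L[X] := (minpoly (im L) (io x)).map ((eq L).symm : im L →+* L) with hP
    have h1 : P.map ((eq L : L ≃ₐ[ℚ] im L) : L →+* im L) = minpoly (im L) (io x) := by
      rw [hP, Polynomial.map_map]
      convert Polynomial.map_id
      ext y
      simp
    have h2 : aeval x P = 0 := by
      apply io.toRingHom.injective
      have h3 := aeval_im L x P
      rw [h1, minpoly.aeval] at h3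
      rw [map_zero]
      exact h3.symm
    have h4 : P.Monic := (minpoly.monic hy).map _
    have h5 := natDegree_le_of_dvd (minpoly.dvd L x h2) h4.ne_zero
    rwa [hP, (minpoly.monic hy).natDegree_map] at h5
  · have h1 : aeval (io x) ((minpoly L x).map ((eq L : L ≃ₐ[ℚ] im L) : L →+* im L)) = 0 := by
      rw [aeval_im, minpoly.aeval, map_zero]
    have h2 : ((minpoly L x).map ((eq L : L ≃ₐ[ℚ] im L) : L →+* im L)).Monic :=
      (minpoly.monic hx).map _
    have h3 := natDegree_le_of_dvd (minpoly.dvd (im L) _ h1) h2.ne_zero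
    rwa [(minpoly.monic hx).natDegree_map] at h3

/-- Part 1 -/
def S_A' : Prop := ∀ (L : IntermediateField ℚ (AlgebraicClosure ℚ)) (z : AlgebraicClosure ℚ),
  IsIntegral ℤ z → z ≠ 0 → ∀ F : L[X], F ≠ 0 → aeval z F = 0 →
    1 / (256 * (F.support.card : ℝ) ^ 2) < F.natDegree * NumberField.absLogHeight₁ z ∨
    ∃ m : ℕ, 1 ≤ m ∧ m ≤ F.natDegree ∧ ((minpoly L (z ^ m)).natDegree : ℝ) ≤
      60 * (F.support.card : ℝ) ^ 2 * (1 + Real.log F.support.card)

theorem partA' (hA : S_A) : S_A' := by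
  intro L z hz h0 F hF0 hF
  obtain ⟨hh, hzi⟩ := hgt_io z hz
  rcases lt_or_ge (1 / (256 * (F.support.card : ℝ) ^ 2))
    (F.natDegree * NumberField.absLogHeight₁ z) with h | h
  · exact Or.inl h
  right
  have hinj : Function.Injective ((eq L : L ≃ₐ[ℚ] im L) : L →+* im L) := (eq L).injective
  have hsupp : (F.map ((eq L : L ≃ₐ[ℚ] im L) : L →+* im L)).support = F.support :=
    support_map_of_injective F hinj
  have hnat : (F.map ((eq L : L ≃ₐ[ℚ] im L) : L →+* im L)).natDegree = F.natDegree :=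
    natDegree_map_eq_of_injective hinj F
  have halg0 : Algebra.IsAlgebraic ℚ L :=
    have := P8H96.RL.Tau.isAlgQ
    Algebra.IsAlgebraic.of_injective L.val L.val.injective
  have halg : Algebra.IsAlgebraic ℚ (im L) :=
    Algebra.IsAlgebraic.of_injective ((eq L).symm : im L →ₐ[ℚ] L) (eq L).symm.injective
  have h0' : io z ≠ 0 := by
    intro h1
    exact h0 ((map_eq_zero io).mp h1)
  obtain ⟨m, hm1, hm2, hm⟩ := hA (im L) halg (io z) hzi h0' (F.map ((eq L : L ≃ₐ[ℚ] im L) : L →+* im L))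
    ((Polynomial.map_ne_zero_iff hinj).mpr hF0) (by rw [aeval_im, hF, map_zero]) (by
      rw [hnat, hsupp, hh]; exact h)
  rw [hnat] at hm2
  rw [hsupp, ← map_pow, ← deg_le_im] at hm
  refine ⟨m, hm1, hm2, ?_⟩
  have hzL : IsIntegral L (z ^ m) := (isIntQ (z ^ m)).tower_top
  apply explicit _ _ hm
  · exact_mod_cast minpoly.natDegree_pos hzL
  · exact_mod_cast Finset.card_pos.mpr (support_nonempty.mpr hF0)

lemma im_Qab : im P8H96.RL.Qab = QAb := by
  unfold im P8H96.RL.Qab QAb
  rw [IntermediateField.adjoin_map]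
  congr 1
  ext y
  constructor
  · rintro ⟨x, ⟨n, hn, hx⟩, rfl⟩
    exact ⟨n, hn, by rw [← map_pow]; exact (congrArg io hx).trans (map_one io)⟩
  · rintro ⟨n, hn, hy⟩
    have hprim := IsAlgClosed.exists_pow_nat_eq (1 : AlgebraicClosure ℚ) hn
    have h1 : y ∈ nthRoots n (1:ℂ) := (mem_nthRoots hn).mpr hy
    have h2 : (nthRoots n (1 : AlgebraicClosure ℚ)).map io = nthRoots n (1:ℂ) := by
      unfold nthRoots
      have h3 : (X ^ n - C (1 : ℂ)) = (X ^ n - C (1 : AlgebraicClosure ℚ)).map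
          (io : AlgebraicClosure ℚ →+* ℂ) := by simp
      rw [h3]
      exact (IsAlgClosed.splits (X ^ n - C (1 : AlgebraicClosure ℚ))).roots_map _ |>.symm
    rw [← h2, Multiset.mem_map] at h1
    obtain ⟨x, hx, rfl⟩ := h1
    exact ⟨x, ⟨n, hn, (mem_nthRoots hn).mp hx⟩, rfl⟩

/-- Dobrowolski's inequality relative to the field of all roots of unity -/
def S_DOB' : Prop := ∃ c : ℝ, 0 < c ∧ ∀ z : AlgebraicClosure ℚ, IsIntegral ℤ z → z ≠ 0 →
  (∀ n : ℕ, 0 < n → z ^ n ≠ 1) →
    c ≤ (minpoly P8H96.RL.Qab z).natDegree * (1 + Real.log (minpoly P8H96.RL.Qab z).natDegree) ^ 6 *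
      NumberField.absLogHeight₁ z

theorem dob' (hdob : S_DOB) : S_DOB' := by
  obtain ⟨c, hc, h⟩ := hdob
  refine ⟨c, hc, ?_⟩
  intro z hz h0 hroot
  obtain ⟨hh, hzi⟩ := hgt_io z hz
  have h1 := h (io z) hzi (fun h1 => h0 ((map_eq_zero io).mp h1)) (by
    intro n hn hc
    rw [← map_pow] at hc
    apply hroot n hn
    apply io.toRingHom.injective
    exact hc.trans (map_one io).symm) (⊥ : IntermediateField QAb ℂ) QAb (by
      intro x hx
      exact (⊥ : IntermediateField QAb ℂ).algebraMap_mem ⟨x, hx⟩)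
  rw [IntermediateField.finrank_bot, hh] at h1
  simp only [Nat.cast_one, Real.log_one, add_zero, one_pow, mul_one, div_one] at h1
  rw [deg_le_im, im_Qab]
  exact h1

/-- Part 2 -/
def S_B' : Prop := ∃ c : ℝ, 0 < c ∧
  ∀ (E : IntermediateField P8H96.RL.Qab (AlgebraicClosure ℚ)),
    FiniteDimensional P8H96.RL.Qab E → ∀ (L : IntermediateField ℚ (AlgebraicClosure ℚ)),
    (∀ x ∈ L, x ∈ E) → ∀ z : AlgebraicClosure ℚ, IsIntegral ℤ z → z ≠ 0 →
    (∀ n : ℕ, 0 < n → z ^ n ≠ 1) → ∀ F : L[X], F ≠ 0 → aeval z F = 0 →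
    c / (finrank P8H96.RL.Qab E * (1 + Real.log (finrank P8H96.RL.Qab E)) ^ 6) /
        ((F.support.card : ℝ) ^ 2 * (Real.log (2 * F.support.card)) ^ 7) ≤
      F.natDegree * NumberField.absLogHeight₁ z

end Pool.Agent.P8H96.SP
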