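import Mathlib
import Pool.Agent.P8H96.SP.Tra
import Pool.Agent.Results.MP_f61260_nt.SmoothRootsPoly

/-!
# Project SP: the theorems for subfields of `AlgebraicClosure ℚ`, parts 2 and 3
-/

set_option autoImplicit false

open Finset Polynomial Module Pool.Agent.Y947.RL

namespace Pool.Agent.P8H96.SP

lemma ht_pow (hhg : S_HG) {z : AlgebraicClosure ℚ} (hz : IsIntegral ℤ z) (m : ℕ) :
    NumberField.absLogHeight₁ (z ^ m) = m * NumberField.absLogHeight₁ z := by
  rw [← (hgt_io z hz).1, ← (hgt_io (z ^ m) (hz.pow m)).1, map_pow,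
    hgt_pow hhg (hgt_io z hz).2 m]

lemma ht_nonneg (hhg : S_HG) {z : AlgebraicClosure ℚ} (hz : IsIntegral ℤ z) :
    0 ≤ NumberField.absLogHeight₁ z := by
  rw [← (hgt_io z hz).1]
  exact hgt_nonneg hhg (hgt_io z hz).2

lemma real' {d s : ℝ} (hd : 1 ≤ d) (hs : 1 ≤ s) (h : d ≤ 60 * s ^ 2 * (1 + Real.log s)) :
    d * (1 + Real.log d) ^ 6 ≤ 90 * 8 ^ 6 * (s ^ 2 * (Real.log (2 * s)) ^ 7) := by
  obtain ⟨y, hy⟩ : ∃ y, y = Real.log s := ⟨_, rfl⟩
  have hy0 : 0 ≤ y := by rw [hy]; exact Real.log_nonneg hs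
  have h2s : Real.log (2 * s) = Real.log 2 + y := by
    rw [hy, Real.log_mul (by norm_num) (by linarith)]
  rw [← hy] at h
  have hl2 := Real.log_two_gt_d9
  have hl2' := Real.log_two_lt_d9
  obtain ⟨w, hw⟩ : ∃ w, w = Real.log (2 * s) := ⟨_, rfl⟩
  rw [← hw] at h2s ⊢
  have h1 : 1 + y ≤ 3 / 2 * w := by linarith
  have hlogd : 1 + Real.log d ≤ 8 * w := by
    have h3 : Real.log d ≤ Real.log (60 * s ^ 2 * (1 + y)) := Real.log_le_log (by linarith) h
    rw [Real.log_mul (by positivity) (by positivity), Real.log_mul (by positivity) (by positivity),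
      Real.log_pow, ← hy] at h3
    have h5 : Real.log 60 ≤ 6 * Real.log 2 := by
      have h6 : Real.log 60 ≤ Real.log (2 ^ 6) := Real.log_le_log (by norm_num) (by norm_num)
      rw [Real.log_pow] at h6
      exact_mod_cast h6
    have h8 := Real.log_le_sub_one_of_pos (show 0 < 1 + y by linarith)
    push_cast at h3
    linarith
  have hld : 0 ≤ Real.log d := Real.log_nonneg hd
  have hw0 : 0 ≤ w := by linarith
  calc d * (1 + Real.log d) ^ 6 ≤ (60 * s ^ 2 * (3 / 2 * w)) * (8 * w) ^ 6 := by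
        apply mul_le_mul _ (pow_le_pow_left₀ (by linarith) hlogd 6) (by positivity) (by positivity)
        exact h.trans (mul_le_mul_of_nonneg_left h1 (by positivity))
    _ = _ := by ring

theorem partB' (hA : S_A') (hdob : S_DOB') (hhg : S_HG) : S_B' := by
  obtain ⟨c0, hc0, hdb⟩ := hdob
  have hlog2 : 0 < Real.log 2 := Real.log_pos (by norm_num)
  refine ⟨min ((Real.log 2) ^ 7 / 256) (c0 / (90 * 8 ^ 6)), by positivity, ?_⟩
  intro E hE L hL z hz h0 hroot F hF0 hF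
  obtain ⟨c, hcdef⟩ : ∃ c : ℝ, c = min ((Real.log 2) ^ 7 / 256) (c0 / (90 * 8 ^ 6)) := ⟨_, rfl⟩
  have hc1 : c ≤ (Real.log 2) ^ 7 / 256 := hcdef ▸ min_le_left _ _
  have hc2 : c ≤ c0 / (90 * 8 ^ 6) := hcdef ▸ min_le_right _ _
  have hcpos : 0 < c := by rw [hcdef]; positivity
  rw [← hcdef]
  obtain ⟨s, hs⟩ : ∃ s : ℝ, s = F.support.card := ⟨_, rfl⟩
  obtain ⟨e, he⟩ : ∃ e : ℝ, e = finrank P8H96.RL.Qab E := ⟨_, rfl⟩
  obtain ⟨e1, he1⟩ : ∃ e1 : ℝ, e1 = e * (1 + Real.log e) ^ 6 := ⟨_, rfl⟩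
  obtain ⟨N, hN⟩ : ∃ N : ℝ, N = F.natDegree := ⟨_, rfl⟩
  obtain ⟨H, hH⟩ : ∃ H : ℝ, H = NumberField.absLogHeight₁ z := ⟨_, rfl⟩
  have hs1 : 1 ≤ s := by
    rw [hs]; exact_mod_cast Finset.card_pos.mpr (support_nonempty.mpr hF0)
  have hE1 : (1:ℝ) ≤ e := by
    rw [he]
    exact_mod_cast (finrank_pos : 0 < finrank P8H96.RL.Qab E)
  have hle : 0 ≤ Real.log e := Real.log_nonneg hE1
  have he11 : 1 ≤ e1 := by
    rw [he1]
    have h1 : (1:ℝ) ≤ (1 + Real.log e) ^ 6 :=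
      one_le_pow₀ (by linarith)
    nlinarith
  have hN0 : 0 ≤ N := by rw [hN]; exact Nat.cast_nonneg _
  have hh0 : 0 ≤ H := by rw [hH]; exact ht_nonneg hhg hz
  have hly : Real.log 2 ≤ Real.log (2 * s) := Real.log_le_log (by norm_num) (by linarith)
  have hly0 : 0 < Real.log (2 * s) := by linarith
  have hS : 0 < s ^ 2 * Real.log (2 * s) ^ 7 := by positivity
  have hAz := hA L z hz h0 F hF0 hF
  rw [← hH, ← he, ← he1]
  rw [← hs, ← hN, ← hH] at hAz
  rw [← hs, ← hN]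
  rw [div_div, div_le_iff₀ (by positivity)]
  have hNh : 0 ≤ N * H := mul_nonneg hN0 hh0
  rcases hAz with hbig | ⟨m, hm1, hmN, hm⟩
  · rw [div_lt_iff₀ (by positivity)] at hbig
    have h7 : (Real.log 2) ^ 7 ≤ Real.log (2 * s) ^ 7 := pow_le_pow_left₀ hlog2.le hly 7
    have h8 : (Real.log 2) ^ 7 / 256 ≤ N * H * (s ^ 2 * Real.log (2 * s) ^ 7) := by
      calc (Real.log 2) ^ 7 / 256 = 1 * (Real.log 2) ^ 7 / 256 := by ring
        _ ≤ (N * H * (256 * s ^ 2)) * (Real.log (2 * s)) ^ 7 / 256 := by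
            apply div_le_div_of_nonneg_right _ (by norm_num)
            exact mul_le_mul hbig.le h7 (by positivity) (by positivity)
        _ = N * H * (s ^ 2 * Real.log (2 * s) ^ 7) := by ring
    have h9 : N * H * (s ^ 2 * Real.log (2 * s) ^ 7) ≤
        N * H * (e1 * (s ^ 2 * Real.log (2 * s) ^ 7)) := by
      apply mul_le_mul_of_nonneg_left _ hNh
      exact le_mul_of_one_le_left hS.le he11
    linarith
  · obtain ⟨d, hd⟩ : ∃ d : ℝ, d = (minpoly L (z ^ m)).natDegree := ⟨_, rfl⟩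
    obtain ⟨D, hD⟩ : ∃ D : ℝ, D = (minpoly P8H96.RL.Qab (z ^ m)).natDegree := ⟨_, rfl⟩
    have hzL : IsIntegral L (z ^ m) := (isIntQ (z ^ m)).tower_top
    have hzQ : IsIntegral P8H96.RL.Qab (z ^ m) := (isIntQ (z ^ m)).tower_top
    have hd1 : 1 ≤ d := by rw [hd]; exact_mod_cast minpoly.natDegree_pos hzL
    have hD1 : 1 ≤ D := by rw [hD]; exact_mod_cast minpoly.natDegree_pos hzQ
    rw [← hd] at hm
    have h1 := real' hd1 hs1 hm
    have h2 := hdb (z ^ m) (hz.pow m) (pow_ne_zero m h0) (by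
      intro n hn h
      rw [← pow_mul] at h
      exact hroot (m * n) (Nat.mul_pos hm1 hn) h)
    rw [ht_pow hhg hz m, ← hH, ← hD] at h2
    have hDed : D ≤ e * d := by
      rw [hD, he, hd]
      exact_mod_cast P8H44.RL.deg E hE L hL (z ^ m)
    have hld : 0 ≤ Real.log d := Real.log_nonneg hd1
    have hlD : 0 ≤ Real.log D := Real.log_nonneg hD1
    have h4 : 1 + Real.log D ≤ (1 + Real.log e) * (1 + Real.log d) := by
      have h5 := Real.log_le_log (by linarith) hDed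
      rw [Real.log_mul (by linarith) (by linarith)] at h5
      nlinarith [mul_nonneg hle hld]
    have h5 : (1 + Real.log D) ^ 6 ≤ ((1 + Real.log e) * (1 + Real.log d)) ^ 6 :=
      pow_le_pow_left₀ (by linarith) h4 6
    have h6 : D * (1 + Real.log D) ^ 6 ≤ e1 * (90 * 8 ^ 6 * (s ^ 2 * (Real.log (2 * s)) ^ 7)) := by
      calc D * (1 + Real.log D) ^ 6 ≤ (e * d) * ((1 + Real.log e) * (1 + Real.log d)) ^ 6 :=
            mul_le_mul hDed h5 (by positivity) (by positivity)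
        _ = e1 * (d * (1 + Real.log d) ^ 6) := by rw [he1]; ring
        _ ≤ _ := mul_le_mul_of_nonneg_left h1 (by linarith)
    have hmN' : (m:ℝ) ≤ N := by rw [hN]; exact_mod_cast hmN
    have h3 : (m:ℝ) * H ≤ N * H := mul_le_mul_of_nonneg_right hmN' hh0
    have hm0 : 0 ≤ (m:ℝ) * H := mul_nonneg (Nat.cast_nonneg _) hh0
    have h7 : c0 ≤ (90 * 8 ^ 6) * (N * H * (e1 * (s ^ 2 * Real.log (2 * s) ^ 7))) := by
      calc c0 ≤ D * (1 + Real.log D) ^ 6 * (m * H) := h2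
        _ ≤ e1 * (90 * 8 ^ 6 * (s ^ 2 * (Real.log (2 * s)) ^ 7)) * (m * H) :=
            mul_le_mul_of_nonneg_right h6 hm0
        _ ≤ e1 * (90 * 8 ^ 6 * (s ^ 2 * (Real.log (2 * s)) ^ 7)) * (N * H) :=
            mul_le_mul_of_nonneg_left h3 (by positivity)
        _ = _ := by ring
    have h8 : c0 / (90 * 8 ^ 6) ≤ N * H * (e1 * (s ^ 2 * Real.log (2 * s) ^ 7)) := by
      rw [div_le_iff₀ (by positivity)]
      linarith
    linarith

/-- Part 3 -/
def S_C' : Prop :=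
  ∀ (K : IntermediateField ℚ (AlgebraicClosure ℚ)), FiniteDimensional ℚ K →
    ∀ (Γ : Subgroup (AlgebraicClosure ℚ)ˣ), Γ.FG →
    ∀ (P : Finset ℕ), (∀ p ∈ P, p.Prime) →
      ∃ A : ℕ, 0 < A ∧ ∀ (L : IntermediateField ℚ (AlgebraicClosure ℚ)),
        L ≤ Results.MP_f61260_nt.SmoothRootsPoly.smoothRootField K Γ P →
        ∀ z : AlgebraicClosure ℚ, IsIntegral ℤ z → z ≠ 0 →
          ¬ Results.MP_f61260_nt.SmoothRootsPoly.InDivisionGroup Γ z →
          ∀ F : L[X], F ≠ 0 → aeval z F = 0 →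
            1 / ((A : ℝ) * (F.support.card : ℝ) ^ A) ≤
              F.natDegree * NumberField.absLogHeight₁ z

open Results.MP_f61260_nt.SmoothRootsPoly in
theorem partC' (hA : S_A') (hhg : S_HG) : S_C' := by
  intro K hK Γ hΓ P hP
  obtain ⟨A, hA0, h⟩ := Results.MP_f61260_nt.SmoothRootsPoly.result K hK Γ hΓ P hP
  refine ⟨256 * A * 60 ^ A, by positivity, ?_⟩
  intro L hL z hz h0 hdiv F hF0 hF
  obtain ⟨s, hs⟩ : ∃ s : ℝ, s = F.support.card := ⟨_, rfl⟩
  obtain ⟨N, hN⟩ : ∃ N : ℝ, N = F.natDegree := ⟨_, rfl⟩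
  obtain ⟨H, hH⟩ : ∃ H : ℝ, H = NumberField.absLogHeight₁ z := ⟨_, rfl⟩
  have hs1 : 1 ≤ s := by
    rw [hs]; exact_mod_cast Finset.card_pos.mpr (support_nonempty.mpr hF0)
  have hN0 : 0 ≤ N := by rw [hN]; exact Nat.cast_nonneg _
  have hh0 : 0 ≤ H := by rw [hH]; exact ht_nonneg hhg hz
  have hA1 : (1:ℝ) ≤ A := by exact_mod_cast hA0
  have h60 : (1:ℝ) ≤ 60 ^ A := one_le_pow₀ (by norm_num)
  have h60' : 1 ≤ 60 ^ A := Nat.one_le_pow _ _ (by norm_num)
  have hAz := hA L z hz h0 F hF0 hF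
  rw [← hs, ← hN, ← hH] at hAz
  rw [← hs, ← hN, ← hH]
  rcases hAz with hbig | ⟨m, hm1, hmN, hm⟩
  · refine le_trans ?_ hbig.le
    apply one_div_le_one_div_of_le (by positivity)
    push_cast
    have h1 : s ^ 2 ≤ s ^ (256 * A * 60 ^ A) := by
      apply pow_le_pow_right₀ hs1
      nlinarith
    have h2 : (256:ℝ) ≤ 256 * A * 60 ^ A := by nlinarith
    exact mul_le_mul h2 h1 (by positivity) (by positivity)
  · have hmN' : (m:ℝ) ≤ N := by rw [hN]; exact_mod_cast hmN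
    have h3 : (m:ℝ) * H ≤ N * H := mul_le_mul_of_nonneg_right hmN' hh0
    refine le_trans ?_ h3
    have hzm : ¬ InDivisionGroup Γ (z ^ m) := by
      rintro ⟨n, hn, g, hg, hgn⟩
      exact hdiv ⟨m * n, Nat.mul_pos hm1 hn, g, hg, by rw [pow_mul]; exact hgn⟩
    have h4 := h (z ^ m) (pow_ne_zero m h0) hzm 1 ⟨1, one_pos, 1, Γ.one_mem, by simp⟩
    rw [div_one, ht_pow hhg hz m, ← hH] at h4
    refine le_trans ?_ h4
    set D := (minpoly (smoothRootField K Γ P) (z ^ m)).natDegree with hD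
    have hDpos : 0 < D := minpoly.natDegree_pos (isIntQ (z ^ m)).tower_top
    have hzL : IsIntegral L (z ^ m) := (isIntQ (z ^ m)).tower_top
    have hDd : D ≤ (minpoly L (z ^ m)).natDegree := by
      have h5 : aeval (z ^ m) ((minpoly L (z ^ m)).map
          (IntermediateField.inclusion hL : L →+* smoothRootField K Γ P)) = 0 := by
        rw [aeval_def, eval₂_map]
        have h6 : (algebraMap (smoothRootField K Γ P) (AlgebraicClosure ℚ)).comp
            (IntermediateField.inclusion hL : L →+* smoothRootField K Γ P) =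
            algebraMap L (AlgebraicClosure ℚ) := rfl
        rw [h6, ← aeval_def, minpoly.aeval]
      have h7 := natDegree_le_of_dvd (minpoly.dvd _ _ h5) ((minpoly.monic hzL).map _).ne_zero
      rwa [(minpoly.monic hzL).natDegree_map] at h7
    have hDs : (D:ℝ) ≤ 60 * s ^ 3 := by
      have h8 : (D:ℝ) ≤ (minpoly L (z ^ m)).natDegree := by exact_mod_cast hDd
      have h9 : 1 + Real.log s ≤ s := by
        have := Real.log_le_sub_one_of_pos (show 0 < s by linarith)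
        linarith
      calc (D:ℝ) ≤ 60 * s ^ 2 * (1 + Real.log s) := h8.trans hm
        _ ≤ 60 * s ^ 2 * s := mul_le_mul_of_nonneg_left h9 (by positivity)
        _ = _ := by ring
    have hDp : (0:ℝ) < D := by exact_mod_cast hDpos
    apply one_div_le_one_div_of_le (by positivity)
    push_cast
    have h10 : (D:ℝ) ^ A ≤ 60 ^ A * s ^ (3 * A) := by
      calc (D:ℝ) ^ A ≤ (60 * s ^ 3) ^ A := pow_le_pow_left₀ hDp.le hDs A
        _ = 60 ^ A * s ^ (3 * A) := by rw [mul_pow, ← pow_mul]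
    have h11 : s ^ (3 * A) ≤ s ^ (256 * A * 60 ^ A) := by
      apply pow_le_pow_right₀ hs1
      nlinarith
    calc (A:ℝ) * (D:ℝ) ^ A ≤ A * (60 ^ A * s ^ (3 * A)) := mul_le_mul_of_nonneg_left h10 (by positivity)
      _ ≤ A * (60 ^ A * s ^ (256 * A * 60 ^ A)) := by gcongr
      _ ≤ 256 * (A * (60 ^ A * s ^ (256 * A * 60 ^ A))) := by
          have : 0 ≤ (A:ℝ) * (60 ^ A * s ^ (256 * A * 60 ^ A)) := by positivity
          linarith
      _ = _ := by ring

end Pool.Agent.P8H96.SP
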