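import Mathlib
import Pool.Agent.P8H96.SP.Stm
import Pool.Agent.Y947.RL.Fin

/-!
# Project SP: FLD and HG
-/

set_option autoImplicit false

open Finset Polynomial Module Pool.Agent.H388SL Pool.Agent.Y947.DL Pool.Agent.Y947.RL

namespace Pool.Agent.P8H96.SP

theorem fld : S_FLD := by
  classical
  intro L hL z hz F N
  have hinjL : Function.Injective (algebraMap L ℂ) := (algebraMap L ℂ).injective
  -- the finite set of the coefficients
  let S : Finset ℂ := ((F.support.image fun i => ((F.coeff i : L) : ℂ))) ∪
    (Finset.range (N + 1)).biUnion fun m =>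
      ((minpoly L (z ^ m)).support.image fun i => (((minpoly L (z ^ m)).coeff i : L) : ℂ))
  have hSL : ∀ x ∈ S, x ∈ L := by
    intro x hx
    rcases Finset.mem_union.mp hx with h | h
    · obtain ⟨i, _, rfl⟩ := Finset.mem_image.mp h
      exact (F.coeff i).2
    · obtain ⟨m, _, h⟩ := Finset.mem_biUnion.mp h
      obtain ⟨i, _, rfl⟩ := Finset.mem_image.mp h
      exact ((minpoly L (z ^ m)).coeff i).2
  have hSint : ∀ x ∈ (S : Set ℂ), IsIntegral ℚ x := by
    intro x hx
    have h1 : IsAlgebraic ℚ (⟨x, hSL x hx⟩ : L) := Algebra.IsAlgebraic.isAlgebraic _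
    exact (h1.algebraMap (A := ℂ)).isIntegral
  set K : IntermediateField ℚ ℂ := IntermediateField.adjoin ℚ (S : Set ℂ) with hK
  have hfd : FiniteDimensional ℚ K := by
    rw [hK]
    exact IntermediateField.finiteDimensional_adjoin hSint
  have hKL : K ≤ L := by
    rw [hK, IntermediateField.adjoin_le_iff]
    intro x hx
    exact hSL x hx
  have hSK : ∀ x ∈ S, x ∈ K := fun x hx => IntermediateField.subset_adjoin ℚ _ hx
  -- lifting polynomials
  have lift : ∀ P : L[X], (∀ i ∈ P.support, ((P.coeff i : L) : ℂ) ∈ K) →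
      ∃ G : K[X], G.map (algebraMap K ℂ) = P.map (algebraMap L ℂ) := by
    intro P hP
    have h1 : P.map (algebraMap L ℂ) ∈ Polynomial.lifts (algebraMap K ℂ) := by
      rw [Polynomial.lifts_iff_coeff_lifts]
      intro i
      rw [coeff_map]
      by_cases hi : i ∈ P.support
      · exact ⟨⟨_, hP i hi⟩, rfl⟩
      · rw [notMem_support_iff.mp hi, map_zero]
        exact ⟨0, map_zero _⟩
    obtain ⟨G, hG⟩ := (Polynomial.mem_lifts _).mp h1
    exact ⟨G, hG⟩
  refine ⟨K, hfd, hKL, ?_, ?_⟩
  · apply lift
    intro i hi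
    apply hSK
    exact Finset.mem_union_left _ (Finset.mem_image_of_mem _ hi)
  · intro m hm
    have hzQ : IsIntegral ℚ (z ^ m) := (hz.pow m).tower_top
    have hzK : IsIntegral K (z ^ m) := hzQ.tower_top
    have hzL : IsIntegral L (z ^ m) := hzQ.tower_top
    obtain ⟨G, hG⟩ := lift (minpoly L (z ^ m)) (by
      intro i hi
      apply hSK
      refine Finset.mem_union_right _ (Finset.mem_biUnion.mpr ⟨m, Finset.mem_range.mpr (by omega), ?_⟩)
      exact Finset.mem_image_of_mem (fun i => (((minpoly L (z ^ m)).coeff i : L) : ℂ)) hi)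
    have hinjK : Function.Injective (algebraMap K ℂ) := (algebraMap K ℂ).injective
    have hGdeg : G.natDegree = (minpoly L (z ^ m)).natDegree := by
      rw [← natDegree_map_eq_of_injective hinjK, hG, natDegree_map_eq_of_injective hinjL]
    have hGz : aeval (z ^ m) G = 0 := by
      rw [aeval_def, ← eval_map, hG, eval_map, ← aeval_def, minpoly.aeval]
    have hG0 : G ≠ 0 := by
      rintro rfl
      rw [Polynomial.map_zero] at hG
      exact minpoly.ne_zero hzL ((Polynomial.map_eq_zero_iff hinjL).mp hG.symm)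
    apply le_antisymm
    · rw [← hGdeg]
      exact natDegree_le_of_dvd (minpoly.dvd K _ hGz) hG0
    · let j : K →+* L := (IntermediateField.inclusion hKL).toRingHom
      have hj : (algebraMap L ℂ).comp j = algebraMap K ℂ := by
        ext x
        rfl
      have h1 : aeval (z ^ m) ((minpoly K (z ^ m)).map j) = 0 := by
        rw [aeval_def, eval₂_map, hj, ← aeval_def, minpoly.aeval]
      have h2 : ((minpoly K (z ^ m)).map j).Monic := (minpoly.monic hzK).map j
      have h3 := natDegree_le_of_dvd (minpoly.dvd L _ h1) h2.ne_zero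
      rwa [(minpoly.monic hzK).natDegree_map] at h3

theorem hg : S_HG := by
  intro M _ _ α τ hα
  set B := IntermediateField.adjoin ℚ {α} with hB
  set g : B := IntermediateField.AdjoinSimple.gen ℚ α with hg
  have hgα : algebraMap B M g = α := IntermediateField.AdjoinSimple.algebraMap_gen ℚ α
  have hαQ : IsIntegral ℚ α := hα.tower_top
  have hgi : IsIntegral ℤ g := by
    rw [← hgα] at hα
    exact (isIntegral_algebraMap_iff (algebraMap B M).injective).mp hα
  have hgc : CInj g := CInj_gen α
  have h1 : lam α = finrank B M * lam g := by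
    unfold lam
    rw [sum_embeddings' α (fun z => Real.log (max 1 ‖z‖)), nsmul_eq_mul]
  have h2 : lam g = Real.log ((minpoly ℤ (τ α)).map (Int.castRingHom ℂ)).mahlerMeasure := by
    have h3 : minpoly ℤ (τ α) = minpoly ℤ g := by
      have h4 : minpoly ℤ (τ α) = minpoly ℤ α := minpoly.algHom_eq (τ.restrictScalars ℤ)
        τ.toRingHom.injective α
      rw [h4, ← hgα]
      exact minpoly.algebraMap_eq (algebraMap B M).injective g
    rw [h3]
    have h4 : (minpoly ℤ g).map (Int.castRingHom ℂ) = (minpoly ℚ g).map (algebraMap ℚ ℂ) := by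
      rw [minpoly.isIntegrallyClosed_eq_field_fractions' ℚ hgi, Polynomial.map_map]
      rfl
    rw [h4, minpoly_map_eq hgc, log_mahler_prod]
    rfl
  have h5 : ((minpoly ℤ (τ α)).natDegree : ℝ) = finrank ℚ B := by
    have h3 : minpoly ℤ (τ α) = minpoly ℤ α := minpoly.algHom_eq (τ.restrictScalars ℤ)
      τ.toRingHom.injective α
    have h4 := minpoly.isIntegrallyClosed_eq_field_fractions' ℚ hα
    have h6 : (minpoly ℤ α).natDegree = (minpoly ℚ α).natDegree := by
      rw [h4, (minpoly.monic hα).natDegree_map]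
    rw [h3, h6, hB, IntermediateField.adjoin.finrank hαQ]
  have h6 : (finrank ℚ B : ℝ) * finrank B M = finrank ℚ M := by
    exact_mod_cast finrank_mul_finrank ℚ B M
  have h7 : (0:ℝ) < finrank ℚ B := by exact_mod_cast finrank_pos
  unfold hgt
  rw [← h2, h5, ← h6, h1]
  field_simp

end Pool.Agent.P8H96.SP
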