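import Mathlib
import Pool.Agent.P8H96.SP.Fin2
import Pool.Agent.P8H96.SP.Fld
import Pool.Agent.P8H20.SP.Card
import Pool.Agent.P8H20.SP.Db
import Pool.Agent.P8H4.SP.Nrm
import Pool.Agent.P8H84.SP.Fou
import Pool.Agent.P8H84.SP.Cls
import Pool.Agent.P8H41.SP.Pow
import Pool.Agent.P8H80.SP.Gen

/-!
# Project SP: assembly
-/

set_option autoImplicit false

namespace Pool.Agent.P8H96.SP

theorem s_a : S_A := by
  have card : S_CARD := P8H20.SP.card
  have trf : S_TRF := P8H20.SP.trf
  have nrm : S_NRM := P8H4.SP.nrm card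
  have fou : S_FOU := P8H84.SP.fou card nrm
  have cls : S_CLS := P8H84.SP.cls
  have pow : S_POW := P8H41.SP.pow card cls
  have gen : S_GEN := P8H80.SP.gen card trf fou pow
  exact partA gen hg fld

theorem s_dob : S_DOB := dob RR.s_alg P8H20.SP.db RR.sep Y235.RL.Cnj.cnj

theorem a' : S_A' := partA' s_a

theorem b' : S_B' := partB' a' (dob' s_dob) hg

theorem c' : S_C' := partC' a' hg

end Pool.Agent.P8H96.SP
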